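import Pool.Agent.Lib.MP_b1acb3_co.Cliq.Blow

/-!
MP_b1acb3_co, complete graphs with at least 6 vertices: sum colourings.
-/

set_option autoImplicit false

namespace Pool.Agent.Lib.MP_b1acb3_co.Cliq

open Finset Classical

section

variable {A : Type} [AddCommGroup A] [Fintype A]

/-- all sums of two distinct elements are distinct -/
def Sid (S : Finset A) : Prop :=
  ∀ x ∈ S, ∀ y ∈ S, ∀ z ∈ S, ∀ w ∈ S, x ≠ y → z ≠ w → x + y = z + w →
    (x = z ∧ y = w) ∨ (x = w ∧ y = z)

/-- ordered pairs with sum `2 x` -/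
theorem fib2 {S : Finset A} (hS : Sid S) (m : A) :
    ((S ×ˢ S).filter fun p => p.1 ≠ p.2 ∧ p.1 + p.2 = m).card ≤ 2 := by
  rcases Finset.eq_empty_or_nonempty ((S ×ˢ S).filter fun p => p.1 ≠ p.2 ∧ p.1 + p.2 = m) with
    h | ⟨⟨a, b⟩, h⟩
  · rw [h]
    simp
  · have h' := h
    simp only [mem_filter, mem_product] at h'
    obtain ⟨⟨ha, hb⟩, hab, hm⟩ := h'
    refine le_trans (Finset.card_le_card (t := {(a, b), (b, a)}) ?_) Finset.card_le_two
    rintro ⟨c, d⟩ hcd
    simp only [mem_filter, mem_product] at hcd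
    obtain ⟨⟨hc, hd⟩, hne, hm'⟩ := hcd
    have := hS c hc d hd a ha b hb hne hab (hm'.trans hm.symm)
    simp only [mem_insert, mem_singleton, Prod.mk.injEq]
    exact this

theorem main (S : Finset A) (hS : Sid S)
    (hinv : ∀ d d' : A, d ≠ 0 → d' ≠ 0 → d + d = 0 → d' + d' = 0 → d = d') (K : ℕ)
    (hA : Fintype.card A = K) (hK : 2 * (K - 1) = S.card * (S.card - 1)) (hK1 : 1 ≤ K) :
    S.card ≤ 5 := by
  set q := S.card with hq
  -- ordered pairs of distinct elements
  set P := (S ×ˢ S).filter fun p => p.1 ≠ p.2 with hP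
  have hPc : P.card = q * (q - 1) := by
    have h1 : P = S.offDiag := by
      ext p
      simp only [hP, mem_filter, mem_product, mem_offDiag]
      tauto
    rw [h1, Finset.offDiag_card, ← hq, Nat.mul_sub_one]
  set r : A → ℕ := fun d => (P.filter fun p => p.1 - p.2 = d).card with hr
  have hsum : ∑ d ∈ univ.erase (0 : A), r d = P.card := by
    rw [Finset.card_eq_sum_card_fiberwise (f := fun p : A × A => p.1 - p.2)
      (t := univ.erase (0 : A))]
    intro p hp
    simp only [hP, coe_filter, mem_product, Set.mem_ofPred_eq] at hp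
    simp only [coe_erase, coe_univ, Set.mem_sdiff, Set.mem_univ, Set.mem_singleton_iff, true_and]
    exact fun h => hp.2 (sub_eq_zero.1 h)
  set Q := (P ×ˢ P).filter fun t => t.1.1 - t.1.2 = t.2.1 - t.2.2 with hQ
  have hQc : Q.card = ∑ d ∈ univ.erase (0 : A), r d * r d := by
    rw [Finset.card_eq_sum_card_fiberwise (f := fun t : (A × A) × (A × A) => t.1.1 - t.1.2)
      (t := univ.erase (0 : A))]
    · refine Finset.sum_congr rfl fun d _ => ?_
      rw [hr]
      simp only
      rw [← Finset.card_product]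
      congr 1
      ext ⟨p, p'⟩
      simp only [hQ, mem_filter, mem_product]
      constructor
      · rintro ⟨⟨⟨h1, h2⟩, h3⟩, h4⟩
        exact ⟨⟨h1, h4⟩, h2, h3 ▸ h4⟩
      · rintro ⟨⟨h1, h4⟩, h2, h3⟩
        exact ⟨⟨⟨h1, h2⟩, h4.trans h3.symm⟩, h4⟩
    · intro t ht
      simp only [hQ, hP, coe_filter, mem_product, mem_filter, Set.mem_ofPred_eq] at ht
      simp only [coe_erase, coe_univ, Set.mem_sdiff, Set.mem_univ, Set.mem_singleton_iff, true_and]
      exact fun h => ht.1.1.2 (sub_eq_zero.1 h)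
  have hlow : 3 * P.card ≤ Q.card + 2 * (K - 1) := by
    rw [hQc, ← hsum]
    have h1 : 2 * (K - 1) = ∑ _d ∈ univ.erase (0 : A), 2 := by
      rw [Finset.sum_const, Finset.card_erase_of_mem (mem_univ _), Finset.card_univ, hA,
        smul_eq_mul, mul_comm]
    rw [h1, Finset.mul_sum, ← Finset.sum_add_distrib]
    refine Finset.sum_le_sum fun d _ => ?_
    have : ∀ n : ℕ, 3 * n ≤ n * n + 2 := by
      intro n
      rcases n with _ | _ | _ | n
      · norm_num
      · norm_num
      · norm_num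
      · nlinarith
    exact this _
  -- upper bound
  set D := (P ×ˢ P).filter fun t => t.1 = t.2 with hD
  set Q1 := (P ×ˢ P).filter fun t => t.1.1 = t.2.2 ∧ t.2.1 ≠ t.1.2 ∧
    t.2.1 + t.1.2 = t.1.1 + t.1.1 with hQ1
  set Q2 := (P ×ˢ P).filter fun t => t.2.1 = t.1.2 ∧ t.1.1 ≠ t.2.2 ∧
    t.1.1 + t.2.2 = t.1.2 + t.1.2 with hQ2
  set Q3 := (P ×ˢ P).filter fun t => t.1.1 = t.2.2 ∧ t.2.1 = t.1.2 ∧
    t.1.1 + t.1.1 = t.1.2 + t.1.2 with hQ3
  have hsub : Q ⊆ ((D ∪ Q1) ∪ Q2) ∪ Q3 := by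
    rintro ⟨⟨x, y⟩, ⟨z, w⟩⟩ ht
    simp only [hQ, hP, mem_filter, mem_product] at ht
    obtain ⟨⟨⟨⟨hx, hy⟩, hxy⟩, ⟨⟨hz, hw⟩, hzw⟩⟩, he⟩ := ht
    have he' : x + w = z + y := by
      have := sub_eq_sub_iff_add_eq_add.1 he
      exact this
    simp only [mem_union, hD, hQ1, hQ2, hQ3, hP, mem_filter, mem_product, hx, hy, hz, hw, true_and]
    by_cases h1 : x = w
    · by_cases h2 : z = y
      · right
        refine ⟨⟨hxy, hzw⟩, h1, h2, ?_⟩
        rw [← h1, h2] at he'
        exact he'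
      · left; left; right
        refine ⟨⟨hxy, hzw⟩, h1, h2, ?_⟩
        rw [← h1] at he'
        exact he'.symm
    · by_cases h2 : z = y
      · left; right
        refine ⟨⟨hxy, hzw⟩, h2, h1, ?_⟩
        rw [h2] at he'
        exact he'
      · left; left; left
        refine ⟨⟨hxy, hzw⟩, ?_⟩
        rcases hS x hx w hw z hz y hy h1 h2 he' with h3 | h3
        · rw [h3.1, h3.2]
        · exact absurd h3.1 hxy
  have hDc : D.card ≤ P.card := by
    refine Finset.card_le_card_of_injOn (fun t => t.1) ?_ ?_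
    · intro t ht
      simp only [hD, coe_filter, mem_product, Set.mem_ofPred_eq] at ht
      exact ht.1.1
    · intro t ht t' ht' h
      simp only [hD, coe_filter, mem_product, Set.mem_ofPred_eq] at ht ht'
      refine Prod.ext h ?_
      rw [← ht.2, ← ht'.2]
      exact h
  have hQ1c : Q1.card ≤ 2 * q := by
    rw [mul_comm]
    refine Finset.card_le_mul_card_image_of_maps_to (f := fun t => t.1.1) (t := S) ?_ 2 ?_ |>.trans ?_
    · intro t ht
      simp only [hQ1, hP, mem_filter, mem_product] at ht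
      exact ht.1.1.1.1
    · intro x _
      refine le_trans (Finset.card_le_card_of_injOn (fun t => (t.2.1, t.1.2))
        (t := (S ×ˢ S).filter fun p => p.1 ≠ p.2 ∧ p.1 + p.2 = x + x) ?_ ?_) (fib2 hS (x + x))
      · rintro ⟨⟨a, b⟩, ⟨c, d⟩⟩ ht
        simp only [hQ1, hP, coe_filter, mem_filter, mem_product, Set.mem_ofPred_eq] at ht ⊢
        obtain ⟨⟨⟨⟨⟨ha, hb⟩, hab⟩, ⟨⟨hc, hd⟩, hcd⟩⟩, h1, h2, h3⟩, h4⟩ := ht
        subst h4
        exact ⟨⟨hc, hb⟩, h2, h3⟩
      · rintro ⟨⟨a, b⟩, ⟨c, d⟩⟩ ht ⟨⟨a', b'⟩, ⟨c', d'⟩⟩ ht' h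
        simp only [hQ1, hP, coe_filter, mem_filter, mem_product, Set.mem_ofPred_eq] at ht ht'
        obtain ⟨⟨_, h1, _, _⟩, h4⟩ := ht
        obtain ⟨⟨_, h1', _, _⟩, h4'⟩ := ht'
        simp only [Prod.mk.injEq] at h ⊢
        refine ⟨⟨h4.trans h4'.symm, h.2⟩, h.1, ?_⟩
        rw [← h1, ← h1']
        exact h4.trans h4'.symm
    · exact le_of_eq (mul_comm _ _)
  have hQ2c : Q2.card ≤ 2 * q := by
    rw [mul_comm]
    refine Finset.card_le_mul_card_image_of_maps_to (f := fun t => t.1.2) (t := S) ?_ 2 ?_ |>.trans ?_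
    · intro t ht
      simp only [hQ2, hP, mem_filter, mem_product] at ht
      exact ht.1.1.1.2
    · intro x _
      refine le_trans (Finset.card_le_card_of_injOn (fun t => (t.1.1, t.2.2))
        (t := (S ×ˢ S).filter fun p => p.1 ≠ p.2 ∧ p.1 + p.2 = x + x) ?_ ?_) (fib2 hS (x + x))
      · rintro ⟨⟨a, b⟩, ⟨c, d⟩⟩ ht
        simp only [hQ2, hP, coe_filter, mem_filter, mem_product, Set.mem_ofPred_eq] at ht ⊢
        obtain ⟨⟨⟨⟨⟨ha, hb⟩, hab⟩, ⟨⟨hc, hd⟩, hcd⟩⟩, h1, h2, h3⟩, h4⟩ := ht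
        subst h4
        exact ⟨⟨ha, hd⟩, h2, h3⟩
      · rintro ⟨⟨a, b⟩, ⟨c, d⟩⟩ ht ⟨⟨a', b'⟩, ⟨c', d'⟩⟩ ht' h
        simp only [hQ2, hP, coe_filter, mem_filter, mem_product, Set.mem_ofPred_eq] at ht ht'
        obtain ⟨⟨_, h1, _, _⟩, h4⟩ := ht
        obtain ⟨⟨_, h1', _, _⟩, h4'⟩ := ht'
        simp only [Prod.mk.injEq] at h ⊢
        refine ⟨⟨h.1, h4.trans h4'.symm⟩, ?_, h.2⟩
        rw [h1, h1']
        exact h4.trans h4'.symm
    · exact le_of_eq (mul_comm _ _)
  have hQ3c : Q3.card ≤ 2 := by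
    rcases Finset.eq_empty_or_nonempty Q3 with h | ⟨⟨⟨a, b⟩, ⟨c, d⟩⟩, h⟩
    · rw [h]
      simp
    · have h' := h
      simp only [hQ3, hP, mem_filter, mem_product] at h'
      obtain ⟨⟨⟨⟨ha, hb⟩, hab⟩, ⟨⟨hc, hd⟩, hcd⟩⟩, h1, h2, h3⟩ := h'
      subst h1 h2
      refine le_trans (Finset.card_le_card (t := {((a, c), (c, a)), ((c, a), (a, c))}) ?_)
        Finset.card_le_two
      rintro ⟨⟨a', b'⟩, ⟨c', d'⟩⟩ ht
      simp only [hQ3, hP, mem_filter, mem_product] at ht
      obtain ⟨⟨⟨⟨ha', hb'⟩, hab'⟩, ⟨⟨hc', hd'⟩, hcd'⟩⟩, h1', h2', h3'⟩ := ht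
      subst h1' h2'
      have e1 : (a - c) + (a - c) = 0 := by
        have : (a - c) + (a - c) = (a + a) - (c + c) := by abel
        rw [this, h3, sub_self]
      have e2 : (a' - c') + (a' - c') = 0 := by
        have : (a' - c') + (a' - c') = (a' + a') - (c' + c') := by abel
        rw [this, h3', sub_self]
      have e3 : a - c = a' - c' := hinv _ _ (sub_ne_zero.2 hab) (sub_ne_zero.2 hab') e1 e2
      have e4 : a + c' = a' + c := sub_eq_sub_iff_add_eq_add.1 e3
      simp only [mem_insert, mem_singleton, Prod.mk.injEq]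
      by_cases g1 : a = c'
      · right
        have g2 : a' = c := by
          have e5 : a' - c' = c - a := by
            rw [← e3]
            have : a - c - (c - a) = 0 := by
              rw [← e1]
              abel
            exact sub_eq_zero.1 this
          rw [← g1] at e5
          exact sub_left_inj.1 e5
        rw [g2, ← g1]
        simp
      · by_cases g2 : a' = c
        · exfalso
          apply g1
          have e5 : a - c = c' - a' := by
            rw [e3]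
            have : a' - c' - (c' - a') = 0 := by
              rw [← e2]
              abel
            exact sub_eq_zero.1 this
          rw [← g2] at e5
          exact sub_left_inj.1 e5
        · left
          rcases hS a ha c' hc' a' ha' c hc g1 g2 e4 with g3 | g3
          · rw [← g3.1, g3.2]
            simp
          · exact absurd g3.1 hab
  have hup : Q.card ≤ P.card + 2 * q + 2 * q + 2 := by
    refine le_trans (Finset.card_le_card hsub) ?_
    refine le_trans (Finset.card_union_le _ _) ?_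
    refine Nat.add_le_add (le_trans (Finset.card_union_le _ _) ?_) hQ3c
    refine Nat.add_le_add (le_trans (Finset.card_union_le _ _) ?_) hQ2c
    exact Nat.add_le_add hDc hQ1c
  rw [hPc] at hlow hup
  by_contra hcon
  have h6 : 6 ≤ q := by omega
  obtain ⟨u, hu⟩ : ∃ u, q = u + 6 := ⟨q - 6, by omega⟩
  have h7 : q * (q - 1) = (u + 6) * (u + 5) := by
    rw [hu]
    congr 1
  rw [hK] at hlow
  rw [h7] at hlow hup
  nlinarith

end

end Pool.Agent.Lib.MP_b1acb3_co.Cliq
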