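import Pool.Agent.Lib.MP_b1acb3_co.Cliq.Small
import Pool.Agent.Lib.MP_b1acb3_co.Cliq.Sum
import Pool.Agent.Lib.MP_b1acb3_co.Deg2

/-!
MP_b1acb3_co: complete graphs.
-/

set_option autoImplicit false

namespace Pool.Agent.Lib.MP_b1acb3_co.Cliq

open Finset Classical

theorem fin_inv (K : ℕ) [NeZero K] (d d' : Fin K) (h : d ≠ 0) (h' : d' ≠ 0) (e : d + d = 0)
    (e' : d' + d' = 0) : d = d' := by
  have key : ∀ x : Fin K, x ≠ 0 → x + x = 0 → 2 * x.val = K := by
    intro x hx hxx
    have h1 : (x + x).val = 0 := by
      rw [hxx]
      rfl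
    rw [Fin.val_add] at h1
    have h2 : 0 < x.val := by
      rcases Nat.eq_zero_or_pos x.val with h0 | h0
      · exact absurd (Fin.ext h0) hx
      · exact h0
    have h3 := x.isLt
    obtain ⟨c, hc⟩ := Nat.dvd_of_mod_eq_zero h1
    rcases c with _ | _ | c
    · omega
    · omega
    · exfalso
      have : K * 2 ≤ K * (c + 1 + 1) := Nat.mul_le_mul_left K (by omega)
      omega
  have h1 := key d h e
  have h2 := key d' h' e'
  exact Fin.ext (by omega)

theorem failBig (V : Type) [Fintype V] (hV : 6 ≤ Fintype.card V) :
    ¬ ForcesRainbow (⊤ : SimpleGraph V) := by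
  set K := numEdges (⊤ : SimpleGraph V) + 1 with hK
  haveI : NeZero K := ⟨by omega⟩
  refine blowup _ K K 1 hK.symm (fun i j => i + j) (fun i j => add_comm i j) (one_mul K).symm
    (by omega) ?_ ?_
  · intro i k
    refine Finset.card_pos.2 ⟨k - i, ?_⟩
    simp
  · intro f hf
    have h := inj_top (fun i j : Fin K => i + j) (fun i j => add_comm i j) f hf
    have hinj : Function.Injective f := by
      intro a b hab
      by_contra hne
      obtain ⟨c, hca, hcb⟩ : ∃ c, c ≠ a ∧ c ≠ b := by
        by_contra hcon
        push Not at hcon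
        have : (univ : Finset V) ⊆ {a, b} := by
          intro c _
          simp only [mem_insert, mem_singleton]
          by_cases hc : c = a
          · exact Or.inl hc
          · exact Or.inr (hcon c hc)
        have h1 := Finset.card_le_card this
        rw [Finset.card_univ] at h1
        have h2 := Finset.card_le_two (a := a) (b := b)
        omega
      rcases h a c b c (Ne.symm hca) (Ne.symm hcb) (by simp only [hab]) with h1 | h1
      · exact hne h1.1
      · exact hcb h1.2
    have hS : Sid (univ.image f) := by
      intro x hx y hy z hz w hw hxy hzw he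
      simp only [mem_image, mem_univ, true_and] at hx hy hz hw
      obtain ⟨x, rfl⟩ := hx
      obtain ⟨y, rfl⟩ := hy
      obtain ⟨z, rfl⟩ := hz
      obtain ⟨w, rfl⟩ := hw
      rcases h x y z w (fun h => hxy (by rw [h])) (fun h => hzw (by rw [h])) he with h1 | h1
      · exact Or.inl ⟨by rw [h1.1], by rw [h1.2]⟩
      · exact Or.inr ⟨by rw [h1.1], by rw [h1.2]⟩
    have hc : (univ.image f).card = Fintype.card V := by
      rw [Finset.card_image_of_injective _ hinj, Finset.card_univ]
    have h5 := main (univ.image f) hS (fin_inv K) K (Fintype.card_fin K) (by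
      rw [hc, hK, Nat.add_sub_cancel, numEdges_top, Nat.choose_two_right, mul_comm 2]
      exact Nat.div_mul_cancel (even_iff_two_dvd.1 (Nat.even_mul_pred_self _))) (by omega)
    rw [hc] at h5
    omega

/-- **Complete graphs.** `K_m`, `m ≥ 2`, has the property if and only if `m ≤ 3`. -/
theorem clique_iff (V : Type) [Fintype V] (hV : 2 ≤ Fintype.card V) :
    ForcesRainbow (⊤ : SimpleGraph V) ↔ Fintype.card V ≤ 3 := by
  constructor
  · intro h
    by_contra hcon
    rcases Nat.lt_or_ge (Fintype.card V) 6 with h1 | h1
    · rcases (by omega : Fintype.card V = 4 ∨ Fintype.card V = 5) with h2 | h2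
      · exact fail4 V h2 h
      · exact fail5 V h2 h
    · exact failBig V h1 h
  · intro h
    refine positive_degenerate (⊤ : SimpleGraph V) univ (Fintype.card V) ?_ ?_ (Or.inl ?_)
    · intro X hX
      exact absurd hX.1 (fun h => hX.2 (Finset.subset_univ _))
    · refine ⟨fun v => (Fintype.equivFin V v : ℕ), ?_, ?_⟩
      · intro a _ b _ hab
        exact (Fintype.equivFin V).injective (Fin.ext hab)
      · intro v _
        refine le_trans (Set.ncard_le_ncard (Set.subset_univ _) (Set.toFinite _)) ?_
        rw [Set.ncard_univ, Nat.card_eq_fintype_card]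
    · have h1 : numEdgesIn (⊤ : SimpleGraph V) univ = numEdges (⊤ : SimpleGraph V) := by
        unfold numEdgesIn numEdges
        congr 1
        ext e
        simp
      rw [h1, numEdges_top]
      rcases (by omega : Fintype.card V = 2 ∨ Fintype.card V = 3) with h2 | h2
      · rw [h2]
        decide
      · rw [h2]
        decide

end Pool.Agent.Lib.MP_b1acb3_co.Cliq
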