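import Pool.Agent.Lib.MP_b1acb3_co.Defs

/-!
MP_b1acb3_co, complete graphs: blow-ups of a colouring with loops.
-/

set_option autoImplicit false

namespace Pool.Agent.Lib.MP_b1acb3_co.Cliq

open Finset Classical

theorem blowup {V : Type} [Fintype V] (G : SimpleGraph V) (N K r : ℕ) (hK : numEdges G + 1 = K)
    (b : Fin N → Fin N → Fin K) (hs : ∀ i j, b i j = b j i) (hN : N = r * K) (hN0 : 0 < N)
    (hd : ∀ i k, r ≤ (univ.filter fun j => b i j = k).card)
    (hb : ∀ f : V → Fin N,
      ¬ Set.InjOn (fun e : Sym2 V => Sym2.lift ⟨b, hs⟩ (e.map f)) G.edgeSet) :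
    ¬ ForcesRainbow G := by
  subst hK
  rintro ⟨ε, hε, n₀, hF⟩
  obtain ⟨t, ht⟩ := exists_nat_ge (max (n₀ : ℝ) (1 / ε))
  have ht1 : n₀ ≤ t := by exact_mod_cast le_trans (le_max_left _ _) ht
  have ht2 : 1 / ε ≤ (t : ℝ) := le_trans (le_max_right _ _) ht
  set h : Fin (t * N) → Fin N := fun x => (finProdFinEquiv.symm x).2 with hh
  set c : Sym2 (Fin (t * N)) → Fin (numEdges G + 1) :=
    Sym2.lift ⟨fun x y => b (h x) (h y), fun x y => hs _ _⟩ with hc
  have hcs : ∀ x y, c s(x, y) = b (h x) (h y) := fun x y => rfl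
  have hfib : ∀ y : Fin N, (univ.filter fun j : Fin (t * N) => h j = y).card = t := by
    intro y
    have h1 : (univ.filter fun j : Fin (t * N) => h j = y) =
        (univ : Finset (Fin t)).image fun i => finProdFinEquiv (i, y) := by
      ext j
      simp only [mem_filter, mem_univ, true_and, mem_image]
      constructor
      · intro hj
        refine ⟨(finProdFinEquiv.symm j).1, ?_⟩
        rw [← hj]
        exact Equiv.apply_symm_apply _ _
      · rintro ⟨i, rfl⟩
        change (finProdFinEquiv.symm (finProdFinEquiv (i, y))).2 = y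
        rw [Equiv.symm_apply_apply]
    rw [h1, Finset.card_image_of_injective, Finset.card_univ, Fintype.card_fin]
    intro i i' hii
    have := finProdFinEquiv.injective hii
    exact (Prod.mk.inj this).1
  have hr : 0 < r := by
    rcases Nat.eq_zero_or_pos r with h0 | h0
    · rw [h0] at hN
      omega
    · exact h0
  have hbal : IsBalanced ε c := by
    intro i k
    have h0 : (univ.filter fun j : Fin (t * N) => b (h i) (h j) = k).card =
        t * (univ.filter fun l => b (h i) l = k).card := by
      rw [Finset.card_eq_sum_card_fiberwise (f := h) (t := univ.filter fun l => b (h i) l = k)]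
      · rw [Finset.sum_const_nat (m := t), mul_comm]
        intro l hl
        refine Eq.trans ?_ (hfib l)
        congr 1
        ext j
        simp only [mem_filter, mem_univ, true_and] at hl ⊢
        constructor
        · exact fun h => h.2
        · intro h
          exact ⟨by rw [h]; exact hl, h⟩
      · intro j hj
        simpa using hj
    have h1 : (univ.filter fun j : Fin (t * N) => b (h i) (h j) = k).card ≤
        colourDegree c i k + 1 := by
      unfold colourDegree
      have h2 : (univ.filter fun j : Fin (t * N) => b (h i) (h j) = k) ⊆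
          insert i (univ.filter fun j : Fin (t * N) => j ≠ i ∧ c s(i, j) = k) := by
        intro j hj
        have hj' := (Finset.mem_filter.1 hj).2
        rw [Finset.mem_insert, Finset.mem_filter]
        by_cases hji : j = i
        · exact Or.inl hji
        · exact Or.inr ⟨mem_univ _, hji, by rw [hcs, hj']⟩
      exact le_trans (Finset.card_le_card h2) (Finset.card_insert_le _ _)
    have h3 : t * r ≤ colourDegree c i k + 1 :=
      le_trans (Nat.mul_le_mul_left t (hd (h i) k)) (h0 ▸ h1)
    have h3' : (t : ℝ) * (r : ℝ) ≤ (colourDegree c i k : ℝ) + 1 := by exact_mod_cast h3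
    have hNr : (0 : ℝ) < ((numEdges G + 1 : ℕ) : ℝ) := by exact_mod_cast Nat.succ_pos _
    have h4 : (1 - ε) * ((t * N : ℕ) : ℝ) / ((numEdges G + 1 : ℕ) : ℝ) =
        (1 - ε) * ((t : ℝ) * (r : ℝ)) := by
      rw [hN, Nat.cast_mul, Nat.cast_mul]
      field_simp
    rw [h4]
    have h5 : 1 ≤ ε * (t : ℝ) := by
      rw [div_le_iff₀ hε] at ht2
      linarith
    have h6 : (1 : ℝ) ≤ (r : ℝ) := by exact_mod_cast hr
    have h7 : 1 ≤ ε * ((t : ℝ) * (r : ℝ)) := by
      calc (1 : ℝ) ≤ (ε * (t : ℝ)) * 1 := by linarith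
        _ ≤ (ε * (t : ℝ)) * (r : ℝ) := by
          refine mul_le_mul_of_nonneg_left h6 ?_
          linarith
        _ = _ := by ring
    linarith
  obtain ⟨f, hf, hrb⟩ := hF (t * N) (le_trans ht1 (Nat.le_mul_of_pos_right t hN0)) c hbal
  refine hb (fun v => h (f v)) ?_
  have h8 : ∀ e : Sym2 V, Sym2.lift ⟨b, hs⟩ (e.map fun v => h (f v)) = c (e.map f) := by
    intro e
    induction e with
    | _ x y => rfl
  intro e he e' he' hee
  refine hrb he he' ?_
  simp only at hee ⊢
  rw [← h8, ← h8]
  exact hee

/-- distinct edges of a complete graph get distinct colours -/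
theorem inj_top {V W C : Type} (b : W → W → C) (hs : ∀ i j, b i j = b j i) (f : V → W)
    (h : Set.InjOn (fun e : Sym2 V => Sym2.lift ⟨b, hs⟩ (e.map f)) (⊤ : SimpleGraph V).edgeSet) :
    ∀ x y z w : V, x ≠ y → z ≠ w → b (f x) (f y) = b (f z) (f w) →
      (x = z ∧ y = w) ∨ (x = w ∧ y = z) := by
  intro x y z w hxy hzw hb
  have h1 : s(x, y) = s(z, w) := by
    refine h ?_ ?_ ?_
    · simpa using hxy
    · simpa using hzw
    · exact hb
  simpa using h1

theorem numEdges_top (V : Type) [Fintype V] :
    numEdges (⊤ : SimpleGraph V) = (Fintype.card V).choose 2 := by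
  unfold numEdges
  rw [← SimpleGraph.card_edgeFinset_top_eq_card_choose_two, SimpleGraph.edgeFinset,
    Set.ncard_eq_toFinset_card']

end Pool.Agent.Lib.MP_b1acb3_co.Cliq
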