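import Pool.Agent.Lib.MP_b1acb3_co.Cliq.Blow

/-!
MP_b1acb3_co, complete graphs: `K_4` and `K_5`.
-/

set_option autoImplicit false

namespace Pool.Agent.Lib.MP_b1acb3_co.Cliq

open Finset Classical

/-- colour table for `K_4`: 14 vertices, 7 colours -/
def t4 (i j : ℕ) : ℕ :=
  (725803687412440259018946065312176211558525604275348939839224803849184693835049066184817395720936524832184513720150325723365306311542515003507028217406441679705406710274623364522
    >>> (3 * (14 * i + j))) &&& 7

/-- colour table for `K_5`: 11 vertices, 11 colours -/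
def t5 (i j : ℕ) : ℕ :=
  (31415793603031620466518536547845974374122394748209368460349605694420200276119021736732505746863153728476456543651617502258507988204529310336434480
    >>> (4 * (11 * i + j))) &&& 15

/-- all `i < n` satisfy `p` -/
def allB (p : ℕ → Bool) : ℕ → Bool
  | 0 => true
  | n + 1 => p n && allB p n

theorem allB_spec (p : ℕ → Bool) (n : ℕ) (h : allB p n = true) : ∀ i, i < n → p i = true := by
  induction n with
  | zero => intro i hi; omega
  | succ n ih =>
    simp only [allB, Bool.and_eq_true] at h
    intro i hi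
    rcases Nat.lt_succ_iff_lt_or_eq.1 hi with h1 | h1
    · exact ih h.2 i h1
    · rw [h1]
      exact h.1

def chk4 : Bool :=
  allB (fun i => allB (fun j => allB (fun k =>
    let a := t4 i j
    let b := t4 i k
    let c := t4 j k
    a.beq b || a.beq c || b.beq c || allB (fun l =>
      let d := t4 i l
      d.beq a || d.beq b || d.beq c ||
      (let e := t4 j l
      e.beq a || e.beq b || e.beq c || e.beq d ||
      (let f := t4 k l
      f.beq a || f.beq b || f.beq c || f.beq d || f.beq e))) 14) 14) 14) 14

theorem chk4_true : chk4 = true := by decide +kernel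

def chk5 : Bool :=
  allB (fun i => allB (fun j => allB (fun k =>
    let a := t5 i j
    let b := t5 i k
    let c := t5 j k
    a.beq b || a.beq c || b.beq c || allB (fun l =>
      let d := t5 i l
      d.beq a || d.beq b || d.beq c ||
      (let e := t5 j l
      e.beq a || e.beq b || e.beq c || e.beq d ||
      (let f := t5 k l
      f.beq a || f.beq b || f.beq c || f.beq d || f.beq e || allB (fun m =>
        let g := t5 i m
        g.beq a || g.beq b || g.beq c || g.beq d || g.beq e || g.beq f ||
        (let h := t5 j m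
        h.beq a || h.beq b || h.beq c || h.beq d || h.beq e || h.beq f || h.beq g ||
        (let u := t5 k m
        u.beq a || u.beq b || u.beq c || u.beq d || u.beq e || u.beq f || u.beq g || u.beq h ||
        (let v := t5 l m
        v.beq a || v.beq b || v.beq c || v.beq d || v.beq e || v.beq f || v.beq g || v.beq h ||
          v.beq u)))) 11))) 11) 11) 11) 11

theorem chk5_true : chk5 = true := by decide +kernel

/-- base colouring for `K_4` -/
def b4 (i j : Fin 14) : Fin 7 := ⟨t4 i j % 7, Nat.mod_lt _ (by norm_num)⟩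

/-- base colouring for `K_5` -/
def b5 (i j : Fin 11) : Fin 11 := ⟨t5 i j % 11, Nat.mod_lt _ (by norm_num)⟩

theorem b4_symm : ∀ i j, b4 i j = b4 j i := by decide +kernel

theorem b5_symm : ∀ i j, b5 i j = b5 j i := by decide +kernel

theorem b4_deg : ∀ i k, 2 ≤ (univ.filter fun j => b4 i j = k).card := by decide +kernel

theorem b5_deg : ∀ i k, 1 ≤ (univ.filter fun j => b5 i j = k).card := by decide +kernel

theorem fail4 (V : Type) [Fintype V] (hV : Fintype.card V = 4) :
    ¬ ForcesRainbow (⊤ : SimpleGraph V) := by
  have hK : numEdges (⊤ : SimpleGraph V) + 1 = 7 := by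
    rw [numEdges_top, hV]
    rfl
  refine blowup _ 14 7 2 hK b4 b4_symm rfl (by norm_num) b4_deg ?_
  intro f hf
  have h := inj_top b4 b4_symm f hf
  let e : V ≃ Fin 4 := Fintype.equivFinOfCardEq hV
  have h2 : ∀ x y z w : Fin 4, x ≠ y → z ≠ w → ¬ ((x = z ∧ y = w) ∨ (x = w ∧ y = z)) →
      t4 (f (e.symm x)) (f (e.symm y)) ≠ t4 (f (e.symm z)) (f (e.symm w)) := by
    intro x y z w hxy hzw hn he
    refine hn ?_
    have h3 := h (e.symm x) (e.symm y) (e.symm z) (e.symm w) (fun h => hxy (e.symm.injective h))
      (fun h => hzw (e.symm.injective h)) (by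
        unfold b4
        rw [Fin.mk.injEq, he])
    simpa using h3
  have c1 := allB_spec _ _ chk4_true (f (e.symm 0)) (f (e.symm 0)).2
  have c2 := allB_spec _ _ c1 (f (e.symm 1)) (f (e.symm 1)).2
  have c3 := allB_spec _ _ c2 (f (e.symm 2)) (f (e.symm 2)).2
  simp only [Bool.or_eq_true, Nat.beq_eq] at c3
  rcases c3 with ((c3 | c3) | c3) | c3
  · exact h2 _ _ _ _ (by decide) (by decide) (by decide) c3
  · exact h2 _ _ _ _ (by decide) (by decide) (by decide) c3
  · exact h2 _ _ _ _ (by decide) (by decide) (by decide) c3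
  have c4 := allB_spec _ _ c3 (f (e.symm 3)) (f (e.symm 3)).2
  simp only [Bool.or_eq_true, Nat.beq_eq] at c4
  rcases c4 with ((c4 | c4) | c4) | c4
  · exact h2 _ _ _ _ (by decide) (by decide) (by decide) c4
  · exact h2 _ _ _ _ (by decide) (by decide) (by decide) c4
  · exact h2 _ _ _ _ (by decide) (by decide) (by decide) c4
  rcases c4 with (((c4 | c4) | c4) | c4) | c4
  · exact h2 _ _ _ _ (by decide) (by decide) (by decide) c4
  · exact h2 _ _ _ _ (by decide) (by decide) (by decide) c4
  · exact h2 _ _ _ _ (by decide) (by decide) (by decide) c4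
  · exact h2 _ _ _ _ (by decide) (by decide) (by decide) c4
  rcases c4 with (((c4 | c4) | c4) | c4) | c4
  · exact h2 _ _ _ _ (by decide) (by decide) (by decide) c4
  · exact h2 _ _ _ _ (by decide) (by decide) (by decide) c4
  · exact h2 _ _ _ _ (by decide) (by decide) (by decide) c4
  · exact h2 _ _ _ _ (by decide) (by decide) (by decide) c4
  · exact h2 _ _ _ _ (by decide) (by decide) (by decide) c4

theorem fail5 (V : Type) [Fintype V] (hV : Fintype.card V = 5) :
    ¬ ForcesRainbow (⊤ : SimpleGraph V) := by
  have hK : numEdges (⊤ : SimpleGraph V) + 1 = 11 := by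
    rw [numEdges_top, hV]
    rfl
  refine blowup _ 11 11 1 hK b5 b5_symm rfl (by norm_num) b5_deg ?_
  intro f hf
  have h := inj_top b5 b5_symm f hf
  let e : V ≃ Fin 5 := Fintype.equivFinOfCardEq hV
  have h2 : ∀ x y z w : Fin 5, x ≠ y → z ≠ w → ¬ ((x = z ∧ y = w) ∨ (x = w ∧ y = z)) →
      t5 (f (e.symm x)) (f (e.symm y)) ≠ t5 (f (e.symm z)) (f (e.symm w)) := by
    intro x y z w hxy hzw hn he
    refine hn ?_
    have h3 := h (e.symm x) (e.symm y) (e.symm z) (e.symm w) (fun h => hxy (e.symm.injective h))
      (fun h => hzw (e.symm.injective h)) (by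
        unfold b5
        rw [Fin.mk.injEq, he])
    simpa using h3
  have c1 := allB_spec _ _ chk5_true (f (e.symm 0)) (f (e.symm 0)).2
  have c2 := allB_spec _ _ c1 (f (e.symm 1)) (f (e.symm 1)).2
  have c3 := allB_spec _ _ c2 (f (e.symm 2)) (f (e.symm 2)).2
  simp only [Bool.or_eq_true, Nat.beq_eq] at c3
  rcases c3 with ((c3 | c3) | c3) | c3
  · exact h2 _ _ _ _ (by decide) (by decide) (by decide) c3
  · exact h2 _ _ _ _ (by decide) (by decide) (by decide) c3
  · exact h2 _ _ _ _ (by decide) (by decide) (by decide) c3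
  have c4 := allB_spec _ _ c3 (f (e.symm 3)) (f (e.symm 3)).2
  simp only [Bool.or_eq_true, Nat.beq_eq] at c4
  rcases c4 with ((c4 | c4) | c4) | c4
  · exact h2 _ _ _ _ (by decide) (by decide) (by decide) c4
  · exact h2 _ _ _ _ (by decide) (by decide) (by decide) c4
  · exact h2 _ _ _ _ (by decide) (by decide) (by decide) c4
  rcases c4 with (((c4 | c4) | c4) | c4) | c4
  · exact h2 _ _ _ _ (by decide) (by decide) (by decide) c4
  · exact h2 _ _ _ _ (by decide) (by decide) (by decide) c4
  · exact h2 _ _ _ _ (by decide) (by decide) (by decide) c4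
  · exact h2 _ _ _ _ (by decide) (by decide) (by decide) c4
  rcases c4 with ((((c4 | c4) | c4) | c4) | c4) | c4
  · exact h2 _ _ _ _ (by decide) (by decide) (by decide) c4
  · exact h2 _ _ _ _ (by decide) (by decide) (by decide) c4
  · exact h2 _ _ _ _ (by decide) (by decide) (by decide) c4
  · exact h2 _ _ _ _ (by decide) (by decide) (by decide) c4
  · exact h2 _ _ _ _ (by decide) (by decide) (by decide) c4
  have c5 := allB_spec _ _ c4 (f (e.symm 4)) (f (e.symm 4)).2
  simp only [Bool.or_eq_true, Nat.beq_eq] at c5
  rcases c5 with (((((c5 | c5) | c5) | c5) | c5) | c5) | c5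
  · exact h2 _ _ _ _ (by decide) (by decide) (by decide) c5
  · exact h2 _ _ _ _ (by decide) (by decide) (by decide) c5
  · exact h2 _ _ _ _ (by decide) (by decide) (by decide) c5
  · exact h2 _ _ _ _ (by decide) (by decide) (by decide) c5
  · exact h2 _ _ _ _ (by decide) (by decide) (by decide) c5
  · exact h2 _ _ _ _ (by decide) (by decide) (by decide) c5
  rcases c5 with ((((((c5 | c5) | c5) | c5) | c5) | c5) | c5) | c5
  · exact h2 _ _ _ _ (by decide) (by decide) (by decide) c5
  · exact h2 _ _ _ _ (by decide) (by decide) (by decide) c5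
  · exact h2 _ _ _ _ (by decide) (by decide) (by decide) c5
  · exact h2 _ _ _ _ (by decide) (by decide) (by decide) c5
  · exact h2 _ _ _ _ (by decide) (by decide) (by decide) c5
  · exact h2 _ _ _ _ (by decide) (by decide) (by decide) c5
  · exact h2 _ _ _ _ (by decide) (by decide) (by decide) c5
  rcases c5 with (((((((c5 | c5) | c5) | c5) | c5) | c5) | c5) | c5) | c5
  · exact h2 _ _ _ _ (by decide) (by decide) (by decide) c5
  · exact h2 _ _ _ _ (by decide) (by decide) (by decide) c5
  · exact h2 _ _ _ _ (by decide) (by decide) (by decide) c5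
  · exact h2 _ _ _ _ (by decide) (by decide) (by decide) c5
  · exact h2 _ _ _ _ (by decide) (by decide) (by decide) c5
  · exact h2 _ _ _ _ (by decide) (by decide) (by decide) c5
  · exact h2 _ _ _ _ (by decide) (by decide) (by decide) c5
  · exact h2 _ _ _ _ (by decide) (by decide) (by decide) c5
  rcases c5 with ((((((((c5 | c5) | c5) | c5) | c5) | c5) | c5) | c5) | c5)
  · exact h2 _ _ _ _ (by decide) (by decide) (by decide) c5
  · exact h2 _ _ _ _ (by decide) (by decide) (by decide) c5
  · exact h2 _ _ _ _ (by decide) (by decide) (by decide) c5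
  · exact h2 _ _ _ _ (by decide) (by decide) (by decide) c5
  · exact h2 _ _ _ _ (by decide) (by decide) (by decide) c5
  · exact h2 _ _ _ _ (by decide) (by decide) (by decide) c5
  · exact h2 _ _ _ _ (by decide) (by decide) (by decide) c5
  · exact h2 _ _ _ _ (by decide) (by decide) (by decide) c5
  · exact h2 _ _ _ _ (by decide) (by decide) (by decide) c5

end Pool.Agent.Lib.MP_b1acb3_co.Cliq
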